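import Pool.Agent.H29.HS.Iface

set_option autoImplicit false

namespace Pool.Agent.H94.HS

open MeasureTheory Filter Topology Pool.Agent.H29.HS

theorem int_fourier (n : ℤ) :
    ∫ θ, (fourier n θ : ℂ) ∂arcM = if n = 0 then 1 else 0 := by
  unfold arcM
  split_ifs with h
  · subst h
    simp
  · exact integral_eq_zero_of_add_right_eq_neg (μ := AddCircle.haarAddCircle)
      (fourier_add_half_inv_index (T := (1:ℝ)) h one_pos)

theorem int_fourier_integrable (n : ℤ) : Integrable (fun θ => (fourier n θ : ℂ)) arcM := by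
  unfold arcM
  exact (fourier n).continuous.integrable_of_hasCompactSupport (HasCompactSupport.of_compactSpace _)

/-- the `j`-th power as a trigonometric polynomial -/
theorem arcU_pow (j : ℕ) (θ : AddCircle (1 : ℝ)) :
    ((arcU θ ^ j : ℝ) : ℂ) = (((Real.sqrt 2) ^ j / 2 ^ j : ℝ) : ℂ) *
      ∑ b ∈ Finset.range (j + 1), ((j.choose b : ℝ) : ℂ) * (fourier ((j : ℤ) - 2 * b) θ : ℂ) := by
  have h1 : (((fourier 1 θ : ℂ).re : ℝ) : ℂ) = ((fourier 1 θ : ℂ) + (fourier (-1) θ : ℂ)) / 2 := by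
    rw [fourier_neg, Complex.re_eq_add_conj]
  have h2 : ((arcU θ ^ j : ℝ) : ℂ) = ((Real.sqrt 2 : ℝ) : ℂ) ^ j / 2 ^ j *
      ((fourier (-1) θ : ℂ) + (fourier 1 θ : ℂ)) ^ j := by
    unfold arcU
    push_cast
    rw [h1, mul_pow, div_pow]
    ring
  rw [h2, add_pow]
  push_cast
  congr 1
  refine Finset.sum_congr rfl fun b hb => ?_
  have hb' : b ≤ j := Nat.lt_succ_iff.1 (Finset.mem_range.1 hb)
  have hp : ∀ (m : ℤ) (k : ℕ), (fourier m θ : ℂ) ^ k = (fourier (k * m) θ : ℂ) := by
    intro m k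
    induction k with
    | zero => simp
    | succ k ih =>
      rw [pow_succ, ih, ← fourier_add]
      congr 1
      push_cast
      ring_nf
  rw [hp, hp, ← fourier_add]
  have e : ((b : ℤ) * -1 + ((j - b : ℕ) : ℤ) * 1) = (j : ℤ) - 2 * b := by
    push_cast [Nat.cast_sub hb']
    ring
  rw [e]
  ring

theorem arcU_moment (j : ℕ) : ∫ θ, arcU θ ^ j ∂arcM = (Real.sqrt 2) ^ j / 2 ^ j *
    ∑ b ∈ Finset.range (j + 1), (j.choose b : ℝ) * (if j = 2 * b then 1 else 0) := by
  have h : ((∫ θ, arcU θ ^ j ∂arcM : ℝ) : ℂ) = (((Real.sqrt 2) ^ j / 2 ^ j *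
    ∑ b ∈ Finset.range (j + 1), (j.choose b : ℝ) * (if j = 2 * b then 1 else 0) : ℝ) : ℂ) := by
    rw [← integral_complex_ofReal]
    simp_rw [arcU_pow j]
    rw [integral_const_mul, integral_finsetSum _ fun b _ => (int_fourier_integrable _).const_mul _]
    simp_rw [integral_const_mul, int_fourier]
    push_cast
    congr 1
    refine Finset.sum_congr rfl fun b _ => ?_
    congr 1
    by_cases hb : j = 2 * b
    · rw [if_pos hb, if_pos (by omega)]; simp
    · rw [if_neg hb, if_neg (by omega)]; simp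
  exact_mod_cast h

theorem arcU_meas : Continuous arcU := by
  unfold arcU
  exact continuous_const.mul (Complex.continuous_re.comp (fourier 1).continuous)

theorem arcU_abs (θ : AddCircle (1 : ℝ)) : |arcU θ| ≤ 2 := by
  unfold arcU
  rw [abs_mul, abs_of_nonneg (Real.sqrt_nonneg 2)]
  have h1 : |(fourier 1 θ : ℂ).re| ≤ 1 := by
    refine (Complex.abs_re_le_norm _).trans ?_
    exact (Circle.norm_coe _).le
  have h2 : Real.sqrt 2 ≤ 2 := by
    rw [Real.sqrt_le_left (by norm_num)]; norm_num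
  nlinarith [abs_nonneg (fourier 1 θ : ℂ).re, Real.sqrt_nonneg 2]

theorem arcU_int {g : AddCircle (1 : ℝ) → ℝ} (hg : Continuous g) : Integrable g arcM := by
  unfold arcM
  exact hg.integrable_of_hasCompactSupport (HasCompactSupport.of_compactSpace _)

theorem arcU_var : ∫ θ, arcU θ ^ 2 ∂arcM = 1 := by
  rw [arcU_moment]
  simp [Finset.sum_range_succ]
  norm_num

theorem isAlph : IsAlph arcM arcU where
  prob := by unfold arcM; infer_instance
  meas := arcU_meas.measurable
  bdd := arcU_abs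
  mean := by
    have := arcU_moment 1
    simp only [pow_one] at this
    rw [this]
    simp [Finset.sum_range_succ]
  var := arcU_var

theorem nrm_ne : nrm arcM arcU ≠ 0 := by
  unfold nrm
  have hc : Continuous (fun θ => |arcU θ| ^ (10 / 9 : ℝ)) :=
    arcU_meas.abs.rpow_const fun θ => Or.inr (by norm_num)
  have h0 : ∀ θ, 0 ≤ |arcU θ| ^ (10 / 9 : ℝ) := fun θ => Real.rpow_nonneg (abs_nonneg _) _
  have hpos : 0 < ∫ θ, |arcU θ| ^ (10 / 9 : ℝ) ∂arcM := by
    refine (integral_nonneg h0).lt_of_ne fun h => ?_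
    have h1 := (integral_eq_zero_iff_of_nonneg h0 (arcU_int hc)).1 h.symm
    have h2 : ∫ θ, arcU θ ^ 2 ∂arcM = 0 := by
      rw [integral_eq_zero_iff_of_nonneg (fun θ => sq_nonneg _) (arcU_int (arcU_meas.pow 2))]
      filter_upwards [h1] with θ hθ
      have h3 : |arcU θ| = 0 := by
        by_contra hne
        have : 0 < |arcU θ| := lt_of_le_of_ne (abs_nonneg _) (Ne.symm hne)
        exact (Real.rpow_pos_of_pos this _).ne' hθ
      have h4 : arcU θ = 0 := abs_eq_zero.1 h3
      simp [h4]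
    rw [arcU_var] at h2
    exact one_ne_zero h2
  exact (Real.rpow_pos_of_pos hpos _).ne'

theorem gmom_tendsto (j : ℕ) : Tendsto (fun m : ℕ => gmom (17 * m) j) atTop
    (𝓝 (∫ θ, arcU θ ^ j ∂arcM)) := by
  rw [arcU_moment]
  unfold gmom
  refine Tendsto.const_mul _ (tendsto_finsetSum _ fun b _ => Tendsto.const_mul _ ?_)
  by_cases hb : j = 2 * b
  · rw [if_pos hb]
    have : ∀ m : ℕ, Real.exp (-(17 * (m : ℝ)) ^ 2 * ((j : ℝ) - 2 * b) ^ 2 / 2) = 1 := by
      intro m
      rw [hb]
      push_cast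
      simp
    simp_rw [this]
    exact tendsto_const_nhds
  · rw [if_neg hb]
    have hne : ((j : ℝ) - 2 * b) ^ 2 > 0 := by
      have : (j : ℝ) - 2 * b ≠ 0 := by
        intro h
        apply hb
        have : (j : ℝ) = ((2 * b : ℕ) : ℝ) := by push_cast; linarith
        exact_mod_cast this
      positivity
    have h1 : Tendsto (fun m : ℕ => (17 * (m : ℝ)) ^ 2 * (((j : ℝ) - 2 * b) ^ 2 / 2)) atTop atTop := by
      refine Tendsto.atTop_mul_const (by positivity) ?_
      exact (tendsto_pow_atTop two_ne_zero).comp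
        (tendsto_natCast_atTop_atTop.const_mul_atTop (by norm_num))
    have h2 := Real.tendsto_exp_neg_atTop_nhds_zero.comp h1
    refine h2.congr fun m => ?_
    simp only [Function.comp]
    congr 1
    ring

theorem g0 : G0Stmt := ⟨isAlph, nrm_ne, gmom_tendsto⟩

end Pool.Agent.H94.HS
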