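import Pool.Agent.H80.HS.Targets

namespace Pool.Agent.H94.HS.A3
open MeasureTheory Set Pool.Agent.H80.HS
open scoped ContDiff ENNReal

theorem a3 (h2 : T_A2) : T_A3 := by
  obtain ⟨A, hA⟩ := h2
  refine ⟨1 + 2 * |A|, ?_⟩
  intro n hn p hp hpn
  have hn1 : 1 ≤ n := by omega
  obtain ⟨hC, hlog⟩ := hA n hn1
  have hnR : (2 : ℝ) ≤ n := by exact_mod_cast hn
  have hn0 : (0 : ℝ) < n := by linarith
  have hp0 : 0 < p := by linarith
  have hQ : (0 : ℝ) < 2 * n + 2 := by linarith
  have hQp : (n : ℝ) ≤ 2 * n + 2 - p := by linarith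
  have hQp0 : (0 : ℝ) < 2 * n + 2 - p := by linarith
  have hbase : 0 < (2 * (n : ℝ) + 2) * p / (2 * n + 2 - p) * CC n := by positivity
  refine ⟨Real.rpow_pos_of_pos hbase p, ?_⟩
  rw [Real.log_rpow hbase]
  have e1 : Real.log ((2 * (n : ℝ) + 2) * p / (2 * n + 2 - p) * CC n) =
      Real.log ((2 * (n : ℝ) + 2) / (2 * n + 2 - p)) + Real.log p + Real.log (CC n) := by
    rw [show (2 * (n : ℝ) + 2) * p / (2 * n + 2 - p) * CC n =
      ((2 * (n : ℝ) + 2) / (2 * n + 2 - p)) * p * CC n by ring]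
    rw [Real.log_mul (by positivity) hC.ne', Real.log_mul (by positivity) hp0.ne']
  have e2 : Real.log ((2 * (n : ℝ) + 2) / (2 * n + 2 - p)) ≤ p / n := by
    have h := Real.log_le_sub_one_of_pos (show 0 < (2 * (n : ℝ) + 2) / (2 * n + 2 - p) by positivity)
    have h' : (2 * (n : ℝ) + 2) / (2 * n + 2 - p) - 1 = p / (2 * n + 2 - p) := by
      rw [div_sub_one hQp0.ne']
      congr 1
      ring
    have h'' : p / (2 * n + 2 - p) ≤ p / n := div_le_div_of_nonneg_left hp0.le hn0 hQp
    linarith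
  have hpi : (0 : ℝ) < 4 * Real.pi * Real.exp 1 * n := by positivity
  have e3 : Real.log (p ^ 2 / (4 * Real.pi * Real.exp 1 * n)) =
      2 * Real.log p - Real.log (4 * Real.pi * Real.exp 1 * n) := by
    rw [Real.log_div (by positivity) hpi.ne', Real.log_pow]
    norm_num
  have e4 : Real.log ((n : ℝ) + 1) ≤ 2 * Real.log n := by
    have : Real.log ((n : ℝ) + 1) ≤ Real.log ((n : ℝ) ^ 2) :=
      Real.log_le_log (by linarith) (by nlinarith)
    rwa [Real.log_pow, Nat.cast_ofNat] at this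
  have hl0 : 0 ≤ Real.log ((n : ℝ) + 1) := Real.log_nonneg (by linarith)
  have e5 : A * Real.log ((n : ℝ) + 1) / n ≤ 2 * |A| * Real.log n / n := by
    apply div_le_div_of_nonneg_right _ hn0.le
    calc A * Real.log ((n : ℝ) + 1) ≤ |A| * Real.log ((n : ℝ) + 1) :=
          mul_le_mul_of_nonneg_right (le_abs_self A) hl0
      _ ≤ |A| * (2 * Real.log n) := mul_le_mul_of_nonneg_left e4 (abs_nonneg A)
      _ = 2 * |A| * Real.log n := by ring
  rw [e1, e3]
  have e6 : Real.log (CC n) ≤ -(1 / 2) * Real.log (4 * Real.pi * Real.exp 1 * n) +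
      2 * |A| * Real.log n / n := by linarith
  have e7 : p * (Real.log ((2 * (n : ℝ) + 2) / (2 * n + 2 - p)) + Real.log p + Real.log (CC n)) ≤
      p * (p / n + Real.log p + (-(1 / 2) * Real.log (4 * Real.pi * Real.exp 1 * n) +
      2 * |A| * Real.log n / n)) := by
    apply mul_le_mul_of_nonneg_left _ hp0.le
    linarith
  refine e7.trans ?_
  have hln : 0 ≤ Real.log n := Real.log_nonneg (by linarith)
  have e8 : p * (p / n + 2 * |A| * Real.log n / n) ≤
      (1 + 2 * |A|) * p * (p + Real.log n) / n := by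
    have : p * (p / n + 2 * |A| * Real.log n / n) = p * (p + 2 * |A| * Real.log n) / n := by
      ring
    rw [this]
    apply div_le_div_of_nonneg_right _ hn0.le
    have : (1 + 2 * |A|) * p * (p + Real.log n) - p * (p + 2 * |A| * Real.log n) =
      p * (Real.log n + 2 * |A| * p) := by ring
    have h3 : 0 ≤ p * (Real.log n + 2 * |A| * p) := by positivity
    linarith
  linarith

end Pool.Agent.H94.HS.A3
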