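import Pool.Agent.H80.HS.Targets

namespace Pool.Agent.H94.HS.G3
open MeasureTheory Set Pool.Agent.H80.HS
open scoped ContDiff ENNReal

lemma gauss_int (n : ℕ) {b : ℝ} (hb : 0 < b) :
    ∫ x : V n, Real.exp (-b * ‖x‖ ^ 2) = (Real.pi / b) ^ ((n : ℝ) / 2) := by
  have h := GaussianFourier.integral_rexp_neg_mul_sq_norm (V := V n) hb
  rw [h, finrank_euclideanSpace_fin]

lemma gauss_integrable (n : ℕ) {b : ℝ} (hb : 0 < b) :
    Integrable (fun x : V n => Real.exp (-b * ‖x‖ ^ 2)) := by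
  by_contra hcon
  have h := gauss_int n hb
  rw [integral_undef hcon] at h
  have : 0 < (Real.pi / b) ^ ((n : ℝ) / 2) := by
    have := Real.pi_pos
    positivity
  linarith

lemma pointwise {p m ρ g : ℝ} (hp : 1 ≤ p) (hm : 1 < m) (hρ : 0 ≤ ρ) (hg : 0 ≤ g) :
    (Real.exp (-ρ / 2) * Real.sqrt (ρ * g)) ^ p ≤
      m ^ (p / 2) * Real.exp (-(p / 2)) *
        (Real.exp (-(p / 2 * (1 - 1 / m)) * ρ) * g ^ (p / 2)) := by
  have hm0 : 0 < m := by linarith
  have hp0 : 0 < p := by linarith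
  have h1 : (Real.exp (-ρ / 2) * Real.sqrt (ρ * g)) ^ p =
      Real.exp (-ρ / 2 * p) * (ρ ^ (p / 2) * g ^ (p / 2)) := by
    rw [Real.mul_rpow (Real.exp_pos _).le (Real.sqrt_nonneg _), ← Real.exp_mul,
      Real.sqrt_eq_rpow, ← Real.rpow_mul (mul_nonneg hρ hg),
      show (1 : ℝ) / 2 * p = p / 2 by ring, Real.mul_rpow hρ hg]
  have h2 : ρ ≤ m * Real.exp (ρ / m - 1) := by
    have h := Real.add_one_le_exp (ρ / m - 1)
    have h' : ρ / m ≤ Real.exp (ρ / m - 1) := by linarith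
    calc ρ = m * (ρ / m) := by field_simp
      _ ≤ m * Real.exp (ρ / m - 1) := mul_le_mul_of_nonneg_left h' hm0.le
  have h3 : ρ ^ (p / 2) ≤ m ^ (p / 2) * Real.exp ((ρ / m - 1) * (p / 2)) := by
    calc ρ ^ (p / 2) ≤ (m * Real.exp (ρ / m - 1)) ^ (p / 2) :=
          Real.rpow_le_rpow hρ h2 (by positivity)
      _ = m ^ (p / 2) * Real.exp ((ρ / m - 1) * (p / 2)) := by
          rw [Real.mul_rpow hm0.le (Real.exp_pos _).le, ← Real.exp_mul]
  have hgp : 0 ≤ g ^ (p / 2) := Real.rpow_nonneg hg _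
  rw [h1]
  calc Real.exp (-ρ / 2 * p) * (ρ ^ (p / 2) * g ^ (p / 2))
      ≤ Real.exp (-ρ / 2 * p) *
        ((m ^ (p / 2) * Real.exp ((ρ / m - 1) * (p / 2))) * g ^ (p / 2)) := by
        apply mul_le_mul_of_nonneg_left _ (Real.exp_pos _).le
        exact mul_le_mul_of_nonneg_right h3 hgp
    _ = m ^ (p / 2) * (Real.exp (-ρ / 2 * p) * Real.exp ((ρ / m - 1) * (p / 2))) *
        g ^ (p / 2) := by ring
    _ = m ^ (p / 2) * (Real.exp (-(p / 2)) * Real.exp (-(p / 2 * (1 - 1 / m)) * ρ)) *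
        g ^ (p / 2) := by
        rw [← Real.exp_add, ← Real.exp_add]
        congr 3
        field_simp
        ring
    _ = _ := by ring

theorem g3 : T_G3 := by
  intro n p m G hp hm hG hc hG0
  have hm0 : 0 < m := by linarith
  have hp0 : 0 < p := by linarith
  set b : ℝ := p / 2 * (1 - 1 / m) with hbdef
  have h1m : 0 < 1 - 1 / m := by
    rw [sub_pos, div_lt_one hm0]
    exact hm
  have hb : 0 < b := by positivity
  have hGi : Integrable (fun t => G t ^ (p / 2)) := by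
    apply Continuous.integrable_of_hasCompactSupport
    · exact hG.rpow_const fun t => Or.inr (by positivity)
    · apply HasCompactSupport.intro hc
      intro t ht
      rw [image_eq_zero_of_notMem_tsupport ht, Real.zero_rpow (by positivity)]
  have hE := gauss_integrable n hb
  have hi1 : Integrable (fun q : V n × ℝ => Real.exp (-b * ‖q.1‖ ^ 2) * G q.2 ^ (p / 2)) :=
    hE.mul_prod hGi
  have hi2 : Integrable (fun z : H n => Real.exp (-b * ‖z.1‖ ^ 2) *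
      (Real.exp (-b * ‖z.2.1‖ ^ 2) * G z.2.2 ^ (p / 2))) :=
    hE.mul_prod hi1
  have hle : ∫ z : H n, (Real.exp (-(‖z.1‖ ^ 2 + ‖z.2.1‖ ^ 2) / 2) *
      Real.sqrt ((‖z.1‖ ^ 2 + ‖z.2.1‖ ^ 2) * G z.2.2)) ^ p ≤
      ∫ z : H n, m ^ (p / 2) * Real.exp (-(p / 2)) * (Real.exp (-b * ‖z.1‖ ^ 2) *
      (Real.exp (-b * ‖z.2.1‖ ^ 2) * G z.2.2 ^ (p / 2))) := by
    apply integral_mono_of_nonneg
    · exact Filter.Eventually.of_forall fun z => Real.rpow_nonneg (by positivity) _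
    · exact hi2.const_mul _
    · apply Filter.Eventually.of_forall
      intro z
      have h := pointwise (ρ := ‖z.1‖ ^ 2 + ‖z.2.1‖ ^ 2) (g := G z.2.2) hp hm
        (by positivity) (hG0 _)
      refine h.trans (le_of_eq ?_)
      rw [← hbdef]
      simp only [mul_add, Real.exp_add]
      ring
  refine hle.trans (le_of_eq ?_)
  rw [integral_const_mul]
  have e1 : ∫ z : H n, Real.exp (-b * ‖z.1‖ ^ 2) *
      (Real.exp (-b * ‖z.2.1‖ ^ 2) * G z.2.2 ^ (p / 2)) =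
      (∫ x : V n, Real.exp (-b * ‖x‖ ^ 2)) *
        ∫ q : V n × ℝ, Real.exp (-b * ‖q.1‖ ^ 2) * G q.2 ^ (p / 2) :=
    integral_prod_mul (fun x : V n => Real.exp (-b * ‖x‖ ^ 2))
      (fun q : V n × ℝ => Real.exp (-b * ‖q.1‖ ^ 2) * G q.2 ^ (p / 2))
  have e2 : ∫ q : V n × ℝ, Real.exp (-b * ‖q.1‖ ^ 2) * G q.2 ^ (p / 2) =
      (∫ x : V n, Real.exp (-b * ‖x‖ ^ 2)) * ∫ t, G t ^ (p / 2) :=
    integral_prod_mul (fun x : V n => Real.exp (-b * ‖x‖ ^ 2)) (fun t => G t ^ (p / 2))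
  rw [e1, e2, gauss_int n hb]
  have hpb : 0 < Real.pi / b := div_pos Real.pi_pos hb
  have e3 : (Real.pi / b) ^ ((n : ℝ) / 2) * (Real.pi / b) ^ ((n : ℝ) / 2) =
      (2 * Real.pi / (p * (1 - 1 / m))) ^ n := by
    rw [← Real.rpow_add hpb, add_halves, Real.rpow_natCast]
    congr 1
    rw [hbdef]
    field_simp
  calc m ^ (p / 2) * Real.exp (-(p / 2)) * ((Real.pi / b) ^ ((n : ℝ) / 2) *
        ((Real.pi / b) ^ ((n : ℝ) / 2) * ∫ t, G t ^ (p / 2)))
      = m ^ (p / 2) * Real.exp (-(p / 2)) * ((Real.pi / b) ^ ((n : ℝ) / 2) *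
        (Real.pi / b) ^ ((n : ℝ) / 2)) * ∫ t, G t ^ (p / 2) := by ring
    _ = _ := by rw [e3]

end Pool.Agent.H94.HS.G3
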