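import Pool.Agent.H80.HS.Targets

namespace Pool.Agent.H94.HS.L1
open MeasureTheory Set Pool.Agent.H80.HS
open scoped ContDiff ENNReal

/-- derivative of the smooth transition function -/
noncomputable def s (x : ℝ) : ℝ := deriv Real.smoothTransition x

lemma s_nonneg (x : ℝ) : 0 ≤ s x := Real.smoothTransition.monotone.deriv_nonneg

lemma s_hasDeriv (x : ℝ) : HasDerivAt Real.smoothTransition (s x) x :=
  ((Real.smoothTransition.contDiff (n := 1)).differentiable (by simp) x).hasDerivAt

lemma s_cont : Continuous s :=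
  (Real.smoothTransition.contDiff (n := 1)).continuous_deriv (by simp)

lemma s_zero {x : ℝ} (h : x < 0 ∨ 1 < x) : s x = 0 := by
  unfold s
  rcases h with h | h
  · have : Real.smoothTransition =ᶠ[nhds x] fun _ => (0 : ℝ) := by
      filter_upwards [Iio_mem_nhds h] with y hy
      exact Real.smoothTransition.zero_of_nonpos (le_of_lt hy)
    rw [this.deriv_eq]
    simp
  · have : Real.smoothTransition =ᶠ[nhds x] fun _ => (1 : ℝ) := by
      filter_upwards [Ioi_mem_nhds h] with y hy
      exact Real.smoothTransition.one_of_one_le (le_of_lt hy)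
    rw [this.deriv_eq]
    simp

lemma fd {n : ℕ} {u : H n → ℝ} {ε : ℝ} (hu : ContDiff ℝ 1 u) (τ : ℝ) (p : H n) :
    HasFDerivAt (fun q : H n => Real.smoothTransition ((u q - τ) / ε))
      ((s ((u p - τ) / ε) / ε) • fderiv ℝ u p) p := by
  have h1 : HasFDerivAt u (fderiv ℝ u p) p :=
    (hu.differentiable one_ne_zero p).hasFDerivAt
  have h2 : HasFDerivAt (fun q : H n => (u q - τ) / ε) (ε⁻¹ • fderiv ℝ u p) p := by
    have h3 := (h1.sub_const τ).const_smul ε⁻¹
    refine h3.congr_of_eventuallyEq (Filter.Eventually.of_forall fun q => ?_)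
    show (u q - τ) / ε = ε⁻¹ * (u q - τ)
    rw [div_eq_inv_mul]
  have h4 := (s_hasDeriv ((u p - τ) / ε)).comp_hasFDerivAt p h2
  rw [smul_smul] at h4
  rw [div_eq_mul_inv]
  exact h4

lemma grad_st {n : ℕ} {u : H n → ℝ} {ε : ℝ} (hu : ContDiff ℝ 1 u) (hε : 0 < ε) (τ : ℝ) (p : H n) :
    grad (fun q : H n => Real.smoothTransition ((u q - τ) / ε)) p =
      (s ((u p - τ) / ε) / ε) * grad u p := by
  have hs : 0 ≤ s ((u p - τ) / ε) / ε := div_nonneg (s_nonneg _) hε.le
  have hf := (fd (ε := ε) hu τ p).fderiv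
  have hX : ∀ j, X (fun q : H n => Real.smoothTransition ((u q - τ) / ε)) j p =
      (s ((u p - τ) / ε) / ε) * X u j p := by
    intro j
    unfold X
    rw [hf]
    rfl
  have hY : ∀ j, Y (fun q : H n => Real.smoothTransition ((u q - τ) / ε)) j p =
      (s ((u p - τ) / ε) / ε) * Y u j p := by
    intro j
    unfold Y
    rw [hf]
    rfl
  unfold grad
  rw [show (∑ j, (‖X (fun q : H n => Real.smoothTransition ((u q - τ) / ε)) j p‖ ^ 2 +
      ‖Y (fun q : H n => Real.smoothTransition ((u q - τ) / ε)) j p‖ ^ 2)) =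
      (s ((u p - τ) / ε) / ε) ^ 2 * ∑ j, (‖X u j p‖ ^ 2 + ‖Y u j p‖ ^ 2) by
    rw [Finset.mul_sum]
    apply Finset.sum_congr rfl
    intro j _
    rw [hX, hY, norm_mul, norm_mul, Real.norm_of_nonneg hs]
    ring]
  rw [Real.sqrt_mul (sq_nonneg _), Real.sqrt_sq hs]

lemma inner_int {ε : ℝ} (hε : 0 < ε) (c : ℝ) :
    ∫⁻ τ : ℝ, ENNReal.ofReal (s ((c - τ) / ε) / ε) = 1 := by
  have hcont : Continuous fun τ : ℝ => s ((c - τ) / ε) / ε := by
    have := s_cont
    fun_prop
  have hcs : HasCompactSupport fun τ : ℝ => s ((c - τ) / ε) / ε := by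
    apply HasCompactSupport.intro (isCompact_Icc (a := c - ε) (b := c))
    intro τ hτ
    rw [s_zero, zero_div]
    by_contra hcon
    push Not at hcon
    obtain ⟨h1, h2⟩ := hcon
    apply hτ
    rw [le_div_iff₀ hε] at h1
    rw [div_le_iff₀ hε] at h2
    constructor <;> linarith
  have hint : Integrable fun τ : ℝ => s ((c - τ) / ε) / ε :=
    hcont.integrable_of_hasCompactSupport hcs
  have hd : ∀ τ : ℝ, HasDerivAt (fun τ => -Real.smoothTransition ((c - τ) / ε))
      (s ((c - τ) / ε) / ε) τ := by
    intro τ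
    have h1 : HasDerivAt (fun τ : ℝ => (c - τ) / ε) (-1 / ε) τ :=
      ((hasDerivAt_id τ).const_sub c).div_const ε
    have h2 := ((s_hasDeriv ((c - τ) / ε)).comp τ h1).neg
    have h3 : -(s ((c - τ) / ε) * (-1 / ε)) = s ((c - τ) / ε) / ε := by ring
    rw [h3] at h2
    exact h2
  have h0 : Filter.Tendsto (fun τ => -Real.smoothTransition ((c - τ) / ε)) Filter.atBot
      (nhds (-1)) := by
    apply tendsto_const_nhds.congr'
    filter_upwards [Filter.eventually_le_atBot (c - ε)] with τ hτ
    rw [Real.smoothTransition.one_of_one_le]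
    rw [le_div_iff₀ hε]
    linarith
  have h1 : Filter.Tendsto (fun τ => -Real.smoothTransition ((c - τ) / ε)) Filter.atTop
      (nhds 0) := by
    apply tendsto_const_nhds.congr'
    filter_upwards [Filter.eventually_ge_atTop c] with τ hτ
    rw [Real.smoothTransition.zero_of_nonpos, neg_zero]
    exact div_nonpos_of_nonpos_of_nonneg (by linarith) hε.le
  have hval := integral_of_hasDerivAt_of_tendsto hd hint h0 h1
  rw [← ofReal_integral_eq_lintegral_ofReal hint
    (Filter.Eventually.of_forall fun τ => div_nonneg (s_nonneg _) hε.le), hval]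
  norm_num

theorem l1 : T_L1 := by
  intro n u ε hu hc h0 hε
  have hg := continuous_grad hu
  have hsc := s_cont
  have huc := hu.continuous
  have hF : Continuous fun z : ℝ × H n => (s ((u z.2 - z.1) / ε) / ε) * grad u z.2 := by
    fun_prop
  calc ∫⁻ τ in Ioi (0 : ℝ), ENNReal.ofReal
        (∫ p, grad (fun q : H n => Real.smoothTransition ((u q - τ) / ε)) p)
      ≤ ∫⁻ τ in Ioi (0 : ℝ), ∫⁻ p : H n,
        ENNReal.ofReal ((s ((u p - τ) / ε) / ε) * grad u p) := by
        apply lintegral_mono
        intro τ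
        have hcont : Continuous fun p : H n => (s ((u p - τ) / ε) / ε) * grad u p := by
          fun_prop
        simp only [grad_st hu hε]
        rw [integral_eq_lintegral_of_nonneg_ae (Filter.Eventually.of_forall fun p =>
          mul_nonneg (div_nonneg (s_nonneg _) hε.le) (grad_nonneg _ _))
          hcont.aestronglyMeasurable]
        exact ENNReal.ofReal_toReal_le
    _ = ∫⁻ p : H n, ∫⁻ τ in Ioi (0 : ℝ),
        ENNReal.ofReal ((s ((u p - τ) / ε) / ε) * grad u p) := by
        apply lintegral_lintegral_swap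
        exact (ENNReal.measurable_ofReal.comp hF.measurable).aemeasurable
    _ ≤ ∫⁻ p : H n, ENNReal.ofReal (grad u p) := by
        apply lintegral_mono
        intro p
        calc ∫⁻ τ in Ioi (0 : ℝ), ENNReal.ofReal ((s ((u p - τ) / ε) / ε) * grad u p)
            ≤ ∫⁻ τ : ℝ, ENNReal.ofReal ((s ((u p - τ) / ε) / ε) * grad u p) :=
              setLIntegral_le_lintegral _ _
          _ = ∫⁻ τ : ℝ, ENNReal.ofReal (grad u p) * ENNReal.ofReal (s ((u p - τ) / ε) / ε) := by
              apply lintegral_congr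
              intro τ
              rw [mul_comm, ENNReal.ofReal_mul (grad_nonneg _ _)]
          _ = ENNReal.ofReal (grad u p) * 1 := by
              rw [lintegral_const_mul, inner_int hε]
              have : Continuous fun τ : ℝ => s ((u p - τ) / ε) / ε := by fun_prop
              exact ENNReal.measurable_ofReal.comp this.measurable
          _ = ENNReal.ofReal (grad u p) := mul_one _
    _ = ENNReal.ofReal (∫ p, grad u p) :=
        (ofReal_integral_eq_lintegral_ofReal (integrable_grad hu hc)
          (Filter.Eventually.of_forall fun p => grad_nonneg _ _)).symm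

end Pool.Agent.H94.HS.L1
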